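import Mathlib

/-! Symmetric functions, Jack polynomials and Schur functions. -/

set_option autoImplicit false

namespace Pool.Agent.Lib.MP_19b511_co

open MvPolynomial

/-- Symmetric functions over the reals: polynomials in the power sums, the variable `X k` being
the power sum `p_(k+1)`. A finitely supported `d` is the partition with `d k` parts equal to
`k + 1`, and `monomial d 1` is the power sum product of that partition. -/
abbrev Sym : Type := MvPolynomial ℕ ℝ

/-- Size of the partition `d`. -/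
noncomputable def psize (d : ℕ →₀ ℕ) : ℕ := Finsupp.weight (fun k : ℕ => k + 1) d

/-- The number `z_d`, product of `(k+1)^m m!` over parts `k + 1` of multiplicity `m`. -/
noncomputable def zee (d : ℕ →₀ ℕ) : ℝ := d.prod fun k m => ((k : ℝ) + 1) ^ m * (m.factorial : ℝ)

/-- The scalar product with `<p_d, p_e> = δ z_d α ^ (number of parts)`; `α = 1` is the Hall
scalar product. -/
noncomputable def form (α : ℝ) (f g : Sym) : ℝ :=
  ∑ d ∈ f.support, coeff d f * coeff d g * (α ^ d.degree * zee d)

/-- Homogeneous of degree `n`. -/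
def Homog (n : ℕ) (f : Sym) : Prop := ∀ d, coeff d f ≠ 0 → psize d = n

/-- The symmetric function `f` as a polynomial in `N` variables. -/
noncomputable def inVars (N : ℕ) (f : Sym) : MvPolynomial (Fin N) ℝ :=
  aeval (fun k : ℕ => psum (Fin N) ℝ (k + 1)) f

/-- Coefficient of the monomial symmetric function `m_ν` in `f`. -/
noncomputable def mcoef (ν : YoungDiagram) (f : Sym) : ℝ :=
  coeff (Finsupp.equivFunOnFinite.symm fun i : Fin ν.card => ν.rowLen i) (inVars ν.card f)

/-- Dominance order `ν ≤ μ`. -/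
def Dom (ν μ : YoungDiagram) : Prop :=
  ∀ k : ℕ, ∑ i ∈ Finset.range k, ν.rowLen i ≤ ∑ i ∈ Finset.range k, μ.rowLen i

/-- `g` is a linear combination of the `m_ν` with `ν < μ` in dominance order. -/
def Below (μ : YoungDiagram) (g : Sym) : Prop :=
  Homog μ.card g ∧ ∀ ν : YoungDiagram, ν.card = μ.card → mcoef ν g ≠ 0 → Dom ν μ ∧ ν ≠ μ

/-- `P` is the monic Jack symmetric function `P_μ^(α)`: it is `m_μ` plus a combination of the
`m_ν` with `ν < μ`, and it is orthogonal to all these `m_ν`. -/
def IsJackP (α : ℝ) (μ : YoungDiagram) (P : Sym) : Prop :=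
  Homog μ.card P ∧ mcoef μ P = 1 ∧
    (∀ ν : YoungDiagram, ν.card = μ.card → mcoef ν P ≠ 0 → Dom ν μ) ∧
    ∀ g : Sym, Below μ g → form α P g = 0

/-- The product of `α a(s) + l(s) + 1` over the cells of `μ`. -/
noncomputable def hookProd (α : ℝ) (μ : YoungDiagram) : ℝ :=
  ∏ s ∈ μ.cells, (α * (μ.rowLen s.1 - s.2 - 1 : ℕ) + (μ.colLen s.2 - s.1 - 1 : ℕ) + 1)

/-- The complete symmetric function `h_r = ∑ p_d / z_d` (zero for negative `r`). -/
noncomputable def hh (r : ℤ) : Sym :=
  ∑ᶠ d ∈ {d : ℕ →₀ ℕ | (psize d : ℤ) = r}, monomial d (zee d)⁻¹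

/-- The Schur function, by the Jacobi-Trudi determinant. -/
noncomputable def schur (lam : YoungDiagram) : Sym :=
  Matrix.det (Matrix.of fun i j : Fin (lam.colLen 0) =>
    hh ((lam.rowLen i : ℤ) - (i : ℕ) + (j : ℕ)))

end Pool.Agent.Lib.MP_19b511_co
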