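import Mathlib
import Pool.Agent.Lib.MP_19b511_co.Defs

/-! The scalar product, the functions `G β r` and the operator adding a variable. -/

set_option autoImplicit false

namespace Pool.Agent.Lib.MP_19b511_co

open MvPolynomial

theorem psize_add_single (d : ℕ →₀ ℕ) (k : ℕ) :
    psize (d + Finsupp.single k 1) = psize d + (k + 1) := by
  simp [psize, Finsupp.weight_single]

theorem psize_add (d e : ℕ →₀ ℕ) : psize (d + e) = psize d + psize e := by
  simp [psize]

theorem psize_eq_zero (d : ℕ →₀ ℕ) : psize d = 0 ↔ d = 0 := by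
  constructor
  · intro h
    ext k
    have := Finsupp.le_weight (fun k : ℕ => k + 1) (s := k) (by omega) d
    unfold psize at h
    simp only [Finsupp.coe_zero, Pi.zero_apply]
    omega
  · intro h
    simp [h, psize]

theorem zee_pos (d : ℕ →₀ ℕ) : 0 < zee d := by
  unfold zee Finsupp.prod
  apply Finset.prod_pos
  intro k _
  positivity

theorem zee_zero : zee 0 = 1 := by simp [zee]

theorem zee_add_single (d : ℕ →₀ ℕ) (k : ℕ) :
    zee (d + Finsupp.single k 1) = zee d * (((k : ℝ) + 1) * ((d k : ℝ) + 1)) := by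
  classical
  have h1 : ∀ e : ℕ →₀ ℕ, zee e = zee (e.erase k) * (((k : ℝ) + 1) ^ e k * ((e k).factorial : ℝ)) := by
    intro e
    unfold zee
    rw [mul_comm]
    exact (Finsupp.mul_prod_erase' e k (fun k m => ((k : ℝ) + 1) ^ m * (m.factorial : ℝ))
      (by intro i; simp)).symm
  rw [h1 (d + Finsupp.single k 1), h1 d, Finsupp.erase_add, Finsupp.erase_single, add_zero]
  simp only [Finsupp.coe_add, Pi.add_apply, Finsupp.single_eq_same, Nat.factorial_succ]
  push_cast
  ring

/-- The weight of `p_d` in the scalar product. -/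
noncomputable def wt (α : ℝ) (d : ℕ →₀ ℕ) : ℝ := α ^ d.degree * zee d

theorem wt_add_single (α : ℝ) (d : ℕ →₀ ℕ) (k : ℕ) :
    wt α (d + Finsupp.single k 1) = wt α d * (α * (((k : ℝ) + 1) * ((d k : ℝ) + 1))) := by
  unfold wt
  rw [zee_add_single, map_add, Finsupp.degree_single, pow_succ]
  ring

theorem form_eq (α : ℝ) (f g : Sym) (S : Finset (ℕ →₀ ℕ)) (h : f.support ⊆ S) :
    form α f g = ∑ d ∈ S, coeff d f * coeff d g * wt α d := by
  unfold form
  apply Finset.sum_subset h
  intro d _ hd
  rw [notMem_support_iff.mp hd]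
  simp

theorem form_comm (α : ℝ) (f g : Sym) : form α f g = form α g f := by
  classical
  rw [form_eq α f g (f.support ∪ g.support) Finset.subset_union_left,
    form_eq α g f (f.support ∪ g.support) Finset.subset_union_right]
  apply Finset.sum_congr rfl
  intro d _
  ring

theorem form_add_right (α : ℝ) (f g h : Sym) : form α f (g + h) = form α f g + form α f h := by
  unfold form
  rw [← Finset.sum_add_distrib]
  apply Finset.sum_congr rfl
  intro d _
  rw [coeff_add]
  ring

theorem form_smul_right (α c : ℝ) (f g : Sym) : form α f (c • g) = c * form α f g := by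
  unfold form
  rw [Finset.mul_sum]
  apply Finset.sum_congr rfl
  intro d _
  rw [coeff_smul, smul_eq_mul]
  ring

/-- The scalar product with `f` as a linear form. -/
noncomputable def formL (α : ℝ) (f : Sym) : Sym →ₗ[ℝ] ℝ where
  toFun g := form α f g
  map_add' := form_add_right α f
  map_smul' c g := form_smul_right α c f g

theorem formL_apply (α : ℝ) (f g : Sym) : formL α f g = form α f g := rfl

theorem form_sum_right {ι : Type} (α : ℝ) (f : Sym) (s : Finset ι) (g : ι → Sym) :
    form α f (∑ i ∈ s, g i) = ∑ i ∈ s, form α f (g i) := by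
  rw [← formL_apply, map_sum]
  rfl

theorem form_sum_left {ι : Type} (α : ℝ) (f : Sym) (s : Finset ι) (g : ι → Sym) :
    form α (∑ i ∈ s, g i) f = ∑ i ∈ s, form α (g i) f := by
  rw [form_comm, form_sum_right]
  simp only [form_comm α f]

theorem form_smul_left (α c : ℝ) (f g : Sym) : form α (c • f) g = c * form α f g := by
  rw [form_comm, form_smul_right, form_comm]

theorem form_add_left (α : ℝ) (f g h : Sym) : form α (f + g) h = form α f h + form α g h := by
  rw [form_comm, form_add_right, form_comm α h, form_comm α h]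

theorem form_sub_left (α : ℝ) (f g h : Sym) : form α (f - g) h = form α f h - form α g h := by
  rw [form_comm, ← formL_apply, map_sub, formL_apply, formL_apply, form_comm α h, form_comm α h]

theorem form_monomial (α a : ℝ) (d : ℕ →₀ ℕ) (g : Sym) :
    form α (monomial d a) g = a * coeff d g * wt α d := by
  classical
  rw [form_eq α _ g {d} support_monomial_subset]
  simp

theorem form_one (α : ℝ) (g : Sym) : form α 1 g = coeff 0 g := by
  have : (1 : Sym) = monomial 0 1 := rfl
  rw [this, form_monomial]
  simp [wt, zee_zero]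

theorem form_self_eq_zero {α : ℝ} (hα : 0 < α) (f : Sym) (h : form α f f = 0) : f = 0 := by
  unfold form at h
  rw [Finset.sum_eq_zero_iff_of_nonneg] at h
  · ext d
    by_contra hd
    have h2 := h d (mem_support_iff.mpr (by simpa using hd))
    have h3 : 0 < α ^ d.degree * zee d := mul_pos (pow_pos hα _) (zee_pos d)
    have h4 : coeff d f * coeff d f = 0 := by
      rcases mul_eq_zero.mp h2 with h5 | h5
      · exact h5
      · exact absurd h5 h3.ne'
    apply hd
    simpa using h4
  · intro d _
    exact mul_nonneg (mul_self_nonneg _) (mul_pos (pow_pos hα _) (zee_pos d)).le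

theorem form_X_mul (α : ℝ) (k : ℕ) (u f : Sym) :
    form α (X k * u) f = α * ((k : ℝ) + 1) * form α u (pderiv k f) := by
  induction u using MvPolynomial.induction_on' with
  | add p q hp hq => rw [mul_add, form_add_left, form_add_left, hp, hq]; ring
  | monomial d a =>
    have : (X k : Sym) * monomial d a = monomial (d + Finsupp.single k 1) a := by
      rw [monomial_add_single, pow_one, mul_comm]
    rw [this, form_monomial, form_monomial, coeff_pderiv, wt_add_single]
    ring

theorem finite_psize (r : ℤ) : {d : ℕ →₀ ℕ | (psize d : ℤ) = r}.Finite := by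
  classical
  apply Set.Finite.subset
    (Set.finite_Iic (∑ k ∈ Finset.range r.toNat, Finsupp.single k r.toNat : ℕ →₀ ℕ))
  intro d hd
  simp only [Set.mem_ofPred_eq] at hd
  simp only [Set.mem_Iic]
  intro k
  by_cases h : d k = 0
  · simp [h]
  · have h1 := Finsupp.le_weight_of_ne_zero' (fun k : ℕ => k + 1) h
    have h2 := Finsupp.le_weight (fun k : ℕ => k + 1) (s := k) (by omega) d
    have h3 : psize d = r.toNat := by omega
    unfold psize at h3
    rw [Finsupp.finsetSum_apply, Finset.sum_eq_single k]
    · simp only [Finsupp.single_eq_same]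
      omega
    · intro j _ hj
      simp [hj.symm]
    · intro hk
      exfalso
      apply hk
      simp only [Finset.mem_range]
      omega

/-- The function `∑ β ^ ℓ(d) p_d / z_d` over partitions `d` of `r`. -/
noncomputable def G (β : ℝ) (r : ℤ) : Sym :=
  ∑ d ∈ (finite_psize r).toFinset, monomial d (β ^ d.degree / zee d)

theorem coeff_G (β : ℝ) (r : ℤ) (d : ℕ →₀ ℕ) :
    coeff d (G β r) = if (psize d : ℤ) = r then β ^ d.degree / zee d else 0 := by
  classical
  unfold G
  rw [coeff_sum]
  simp only [coeff_monomial]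
  rw [Finset.sum_ite_eq']
  simp

theorem hh_eq (r : ℤ) : hh r = G 1 r := by
  unfold hh G
  rw [finsum_mem_eq_finite_toFinset_sum _ (finite_psize r)]
  simp

theorem G_neg (β : ℝ) (r : ℤ) (h : r < 0) : G β r = 0 := by
  ext d
  rw [coeff_G, if_neg (by omega)]
  simp

theorem G_zero (β : ℝ) : G β 0 = 1 := by
  classical
  ext d
  rw [coeff_G, coeff_one]
  by_cases h : d = 0
  · simp [h, psize, zee_zero]
  · rw [if_neg, if_neg (fun h2 => h h2.symm)]
    intro h2
    exact h ((psize_eq_zero d).mp (by omega))

theorem pderiv_G (β : ℝ) (r : ℤ) (k : ℕ) :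
    pderiv k (G β r) = (β / ((k : ℝ) + 1)) • G β (r - (k + 1 : ℕ)) := by
  ext d
  rw [coeff_pderiv, coeff_smul, coeff_G, coeff_G, psize_add_single]
  by_cases h : (psize d : ℤ) = r - (k + 1 : ℕ)
  · rw [if_pos h, if_pos (by push_cast at h ⊢; omega), zee_add_single, map_add,
      Finsupp.degree_single, smul_eq_mul]
    have := zee_pos d
    field_simp
    ring
  · rw [if_neg h, if_neg (by push_cast at h ⊢; omega)]
    simp

theorem euler_monomial (M : ℕ) (d : ℕ →₀ ℕ) (a : ℝ) (h : psize d ≤ M) :
    ∑ k ∈ Finset.range M, ((k : ℝ) + 1) • ((X k : Sym) * pderiv k (monomial d a)) =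
      (psize d : ℝ) • monomial d a := by
  have h1 : ∀ k : ℕ, ((k : ℝ) + 1) • ((X k : Sym) * pderiv k (monomial d a)) =
      ((d k * (k + 1) : ℕ) : ℝ) • (monomial d a : Sym) := by
    intro k
    rw [X_mul_pderiv_monomial, ← Nat.cast_smul_eq_nsmul ℝ, smul_smul]
    push_cast
    rw [mul_comm]
  simp only [h1]
  rw [← Finset.sum_smul, ← Nat.cast_sum]
  congr 2
  unfold psize
  rw [Finsupp.weight_apply, Finsupp.sum_of_support_subset d (s := Finset.range M)]
  · simp
  · intro k hk
    have h2 := Finsupp.le_weight_of_ne_zero' (fun k : ℕ => k + 1) (Finsupp.mem_support_iff.mp hk)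
    unfold psize at h
    simp only [Finset.mem_range]
    omega
  · intro i _
    simp

theorem G_rec (β : ℝ) (r : ℕ) :
    (r : ℝ) • G β r = β • ∑ k ∈ Finset.range r, X k * G β (r - (k + 1 : ℕ)) := by
  have h1 : (r : ℝ) • G β r =
      ∑ k ∈ Finset.range r, ((k : ℝ) + 1) • ((X k : Sym) * pderiv k (G β r)) := by
    unfold G
    simp only [map_sum, Finset.mul_sum, Finset.smul_sum]
    rw [Finset.sum_comm]
    apply Finset.sum_congr rfl
    intro d hd
    have h2 : psize d = r := by
      have : (psize d : ℤ) = r := by simpa using hd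
      omega
    rw [euler_monomial r d _ h2.le, h2]
  rw [h1, Finset.smul_sum]
  apply Finset.sum_congr rfl
  intro k _
  rw [pderiv_G, mul_smul_comm, smul_smul]
  congr 1
  have : ((k : ℝ) + 1) ≠ 0 := by positivity
  field_simp

theorem homog_G (β : ℝ) (r : ℕ) : Homog r (G β r) := by
  intro d hd
  rw [coeff_G] at hd
  by_contra h
  apply hd
  rw [if_neg (by omega)]

theorem Homog.mul {m n : ℕ} {f g : Sym} (hf : Homog m f) (hg : Homog n g) :
    Homog (m + n) (f * g) := by
  classical
  intro d hd
  rw [coeff_mul] at hd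
  obtain ⟨x, hx, h⟩ := Finset.exists_ne_zero_of_sum_ne_zero hd
  rw [Finset.HasAntidiagonal.mem_antidiagonal] at hx
  rw [← hx, psize_add, hf _ (left_ne_zero_of_mul h), hg _ (right_ne_zero_of_mul h)]

theorem Homog.smul {n : ℕ} {f : Sym} (hf : Homog n f) (c : ℝ) : Homog n (c • f) := by
  intro d hd
  rw [coeff_smul, smul_eq_mul] at hd
  exact hf d (right_ne_zero_of_mul hd)

theorem Homog.sub {n : ℕ} {f g : Sym} (hf : Homog n f) (hg : Homog n g) : Homog n (f - g) := by
  intro d hd
  rw [coeff_sub] at hd
  by_cases h : coeff d f = 0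
  · apply hg d
    intro h2
    apply hd
    rw [h, h2, sub_zero]
  · exact hf d h

theorem Homog.sum {ι : Type} {n : ℕ} (s : Finset ι) (f : ι → Sym) (hf : ∀ i ∈ s, Homog n (f i)) :
    Homog n (∑ i ∈ s, f i) := by
  intro d hd
  rw [coeff_sum] at hd
  obtain ⟨i, hi, h⟩ := Finset.exists_ne_zero_of_sum_ne_zero hd
  exact hf i hi d h

end Pool.Agent.Lib.MP_19b511_co
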