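import Mathlib
import Pool.Agent.Lib.MP_19b511_co.Form

/-! Adding one variable to a symmetric function. -/

set_option autoImplicit false

namespace Pool.Agent.Lib.MP_19b511_co

open MvPolynomial

/-- Add a new variable: `p_k` becomes `p_k + t^k`. -/
noncomputable def T : Sym →ₐ[ℝ] Polynomial Sym :=
  aeval fun k : ℕ => Polynomial.C (X k : Sym) + Polynomial.X ^ (k + 1)

theorem T_X (k : ℕ) : T (X k) = Polynomial.C (X k : Sym) + Polynomial.X ^ (k + 1) := by
  simp [T]

theorem T_C (a : ℝ) : T (C a) = Polynomial.C (C a : Sym) := by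
  simp [T]

/-- Coefficient of `t^r` after adding the variable `t`. -/
noncomputable def Tc (r : ℕ) : Sym →ₗ[ℝ] Sym where
  toFun f := (T f).coeff r
  map_add' f g := by simp
  map_smul' c f := by simp

theorem Tc_apply (r : ℕ) (f : Sym) : Tc r f = (T f).coeff r := rfl

theorem Tc_zero (f : Sym) : Tc 0 f = f := by
  rw [Tc_apply]
  induction f using MvPolynomial.induction_on with
  | C a => rw [T_C]; simp
  | add p q hp hq => simp [hp, hq]
  | mul_X p k hp => rw [map_mul, Polynomial.mul_coeff_zero, hp, T_X]; simp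

theorem Tc_mul (r : ℕ) (f g : Sym) :
    Tc r (f * g) = ∑ j ∈ Finset.range (r + 1), Tc (r - j) f * Tc j g := by
  rw [mul_comm f g, Tc_apply, map_mul, Polynomial.coeff_mul,
    Finset.Nat.sum_antidiagonal_eq_sum_range_succ (fun i j => (T g).coeff i * (T f).coeff j)]
  apply Finset.sum_congr rfl
  intro j _
  rw [mul_comm]
  rfl

theorem deriv_T (M : ℕ) (f : Sym) :
    Polynomial.X ^ M ∣ Polynomial.derivative (T f) -
      ∑ k ∈ Finset.range M, ((k + 1 : ℕ) : Polynomial Sym) * Polynomial.X ^ k * T (pderiv k f) := by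
  classical
  induction f using MvPolynomial.induction_on with
  | C a => rw [T_C]; simp
  | add p q hp hq =>
    have := dvd_add hp hq
    simp only [map_add, mul_add, Finset.sum_add_distrib]
    refine (dvd_iff_dvd_of_dvd_sub ?_).mp this
    exact ⟨0, by ring⟩
  | mul_X p n hp =>
    have h1 : ∀ k : ℕ, T (pderiv k (p * X n)) =
        T (pderiv k p) * T (X n) + if k = n then T p else 0 := by
      intro k
      rw [pderiv_mul, map_add, map_mul, map_mul]
      by_cases h : k = n
      · subst h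
        simp
      · rw [pderiv_X_of_ne (fun h2 => h h2.symm), if_neg h]
        simp
    have h2 : Polynomial.derivative (T (X n)) = ((n + 1 : ℕ) : Polynomial Sym) * Polynomial.X ^ n := by
      rw [T_X]
      simp
    simp only [h1, mul_add, Finset.sum_add_distrib, mul_ite, mul_zero, ← mul_assoc]
    rw [← Finset.sum_mul, Finset.sum_ite_eq', map_mul, Polynomial.derivative_mul, h2]
    have h3 := hp.mul_right (T (X n))
    by_cases h : n ∈ Finset.range M
    · rw [if_pos h]
      refine (dvd_iff_dvd_of_dvd_sub ?_).mp h3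
      exact ⟨0, by ring⟩
    · rw [if_neg h]
      refine (dvd_iff_dvd_of_dvd_sub ?_).mp h3
      have h4 : M ≤ n := by simpa using h
      obtain ⟨c, rfl⟩ := Nat.exists_eq_add_of_le h4
      exact ⟨-(T p * ((M + c + 1 : ℕ) : Polynomial Sym) * Polynomial.X ^ c), by ring⟩

theorem Tc_rec (r : ℕ) (f : Sym) :
    ((r : ℝ) + 1) • Tc (r + 1) f =
      ∑ k ∈ Finset.range (r + 1), ((k : ℝ) + 1) • Tc (r - k) (pderiv k f) := by
  have h := Polynomial.X_pow_dvd_iff.mp (deriv_T (r + 1) f) r (by omega)
  rw [Polynomial.coeff_sub, sub_eq_zero, Polynomial.coeff_derivative,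
    Polynomial.finsetSum_coeff] at h
  have h1 : ((r : ℝ) + 1) • Tc (r + 1) f = (T f).coeff (r + 1) * ((r : Sym) + 1) := by
    rw [Tc_apply, smul_eq_C_mul, mul_comm]
    simp
  rw [h1, h]
  apply Finset.sum_congr rfl
  intro k hk
  have hk2 : k ≤ r := by simpa [Nat.lt_succ_iff] using hk
  rw [mul_assoc, ← Polynomial.C_eq_natCast, Polynomial.coeff_C_mul, Polynomial.coeff_X_pow_mul',
    if_pos hk2, Tc_apply, smul_eq_C_mul]
  simp

theorem form_G_mul {α β : ℝ} (h : β * α = 1) (r : ℕ) :
    ∀ u f : Sym, form α (G β r * u) f = form α u (Tc r f) := by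
  induction r using Nat.strong_induction_on with
  | _ r ih =>
    intro u f
    cases r with
    | zero => simp [G_zero, Tc_zero]
    | succ r =>
      have h0 : ((r : ℝ) + 1) ≠ 0 := by positivity
      apply mul_left_cancel₀ h0
      rw [← form_smul_left, ← form_smul_right, Tc_rec, ← smul_mul_assoc]
      have h1 := G_rec β (r + 1)
      rw [Nat.cast_add, Nat.cast_one] at h1
      rw [h1, smul_mul_assoc, form_smul_left, Finset.sum_mul, form_sum_left, form_sum_right,
        Finset.mul_sum]
      apply Finset.sum_congr rfl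
      intro k hk
      have hk2 : k ≤ r := by simpa [Nat.lt_succ_iff] using hk
      have h2 : ((r + 1 : ℕ) : ℤ) - ((k + 1 : ℕ) : ℤ) = ((r - k : ℕ) : ℤ) := by omega
      rw [mul_assoc, form_X_mul, h2, form_smul_right, ih (r - k) (by omega), ← mul_assoc,
        ← mul_assoc, h, one_mul]

/-- Rising factorial. -/
noncomputable def rise (x : ℝ) (j : ℕ) : ℝ := ∏ i ∈ Finset.range j, (x + i)

/-- The number `(β)_j / j!`. -/
noncomputable def cc (β : ℝ) (j : ℕ) : ℝ := rise β j / (j.factorial : ℝ)

theorem cc_succ (β : ℝ) (j : ℕ) : ((j : ℝ) + 1) * cc β (j + 1) = (β + j) * cc β j := by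
  unfold cc rise
  rw [Finset.prod_range_succ, Nat.factorial_succ]
  have : (j.factorial : ℝ) ≠ 0 := by positivity
  push_cast
  field_simp

theorem cc_rec (β : ℝ) (j : ℕ) :
    ((j : ℝ) + 1) * cc β (j + 1) = β * ∑ i ∈ Finset.range (j + 1), cc β i := by
  induction j with
  | zero => rw [cc_succ]; simp
  | succ j ih =>
    rw [Finset.sum_range_succ, mul_add, ← ih, cc_succ]
    push_cast
    ring

theorem Tc_G (β : ℝ) (j : ℕ) : ∀ r : ℤ, Tc j (G β r) = cc β j • G β (r - j) := by
  induction j using Nat.strong_induction_on with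
  | _ j ih =>
    intro r
    cases j with
    | zero => simp [Tc_zero, cc, rise]
    | succ j =>
      have h0 : ((j : ℝ) + 1) ≠ 0 := by positivity
      apply smul_right_injective Sym h0
      simp only
      rw [Tc_rec, smul_smul, cc_rec, ← Finset.sum_range_reflect (fun i => cc β i), Finset.mul_sum,
        Finset.sum_smul]
      apply Finset.sum_congr rfl
      intro k hk
      have hk2 : k ≤ j := by simpa [Nat.lt_succ_iff] using hk
      rw [pderiv_G, map_smul, ih (j - k) (by omega), smul_smul, smul_smul]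
      have h1 : ((k : ℝ) + 1) ≠ 0 := by positivity
      have h2 : r - ((k + 1 : ℕ) : ℤ) - ((j - k : ℕ) : ℤ) = r - ((j + 1 : ℕ) : ℤ) := by omega
      have h3 : ((k : ℝ) + 1) * (β / ((k : ℝ) + 1)) = β := by field_simp
      rw [h2, Nat.add_sub_cancel, h3]

/-- The product `G (N - y) * G y`. -/
noncomputable def GG (β : ℝ) (N y : ℕ) : Sym := G β ((N : ℤ) - y) * G β y

/-- Coefficient of `u^j` in the `a`-th coefficient of the product of two binomial series. -/
noncomputable def qq (β : ℝ) (a j : ℕ) : ℝ := if j ≤ a then cc β j * cc β (a - j) else 0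

theorem GG_of_lt (β : ℝ) {N y : ℕ} (h : N < y) : GG β N y = 0 := by
  unfold GG
  rw [G_neg β _ (by omega), zero_mul]

theorem GG_symm (β : ℝ) {N y : ℕ} (h : y ≤ N) : GG β N (N - y) = GG β N y := by
  unfold GG
  have h1 : (N : ℤ) - ((N - y : ℕ) : ℤ) = y := by omega
  have h2 : ((N - y : ℕ) : ℤ) = (N : ℤ) - y := by omega
  rw [mul_comm, h1, h2]

theorem GG_zero (β : ℝ) : GG β 0 0 = 1 := by simp [GG, G_zero]

theorem Tc_GG (β : ℝ) (a M y : ℕ) :
    Tc a (GG β (a + M) y) = ∑ v ∈ Finset.range (y + 1), qq β a (y - v) • GG β M v := by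
  have h1 : Tc a (GG β (a + M) y) = ∑ j ∈ Finset.range (a + y + 1),
      qq β a j • (G β ((M : ℤ) - y + j) * G β ((y : ℤ) - j)) := by
    unfold GG
    rw [Tc_mul]
    symm
    rw [← Finset.sum_subset (s₁ := Finset.range (a + 1))]
    · apply Finset.sum_congr rfl
      intro j hj
      have hj2 : j ≤ a := by simpa [Nat.lt_succ_iff] using hj
      have h3 : ((a + M : ℕ) : ℤ) - y - ((a - j : ℕ) : ℤ) = (M : ℤ) - y + j := by omega
      rw [Tc_G, Tc_G, smul_mul_smul_comm, qq, if_pos hj2, mul_comm (cc β j), h3]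
    · intro j hj
      simp only [Finset.mem_range] at hj ⊢
      omega
    · intro j _ hj
      rw [qq, if_neg (by simpa [Nat.lt_succ_iff] using hj), zero_smul]
  rw [h1, ← Finset.sum_range_reflect (fun v => qq β a (y - v) • GG β M v)]
  rw [← Finset.sum_subset (s₁ := Finset.range (y + 1)) (s₂ := Finset.range (a + y + 1))]
  · apply Finset.sum_congr rfl
    intro j hj
    have hj2 : j ≤ y := by simpa [Nat.lt_succ_iff] using hj
    have h3 : y - (y + 1 - 1 - j) = j := by omega
    have h4 : (M : ℤ) - ((y + 1 - 1 - j : ℕ) : ℤ) = (M : ℤ) - y + j := by omega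
    have h5 : ((y + 1 - 1 - j : ℕ) : ℤ) = (y : ℤ) - j := by omega
    rw [GG, h3, h4, h5]
  · intro j hj
    simp only [Finset.mem_range] at hj ⊢
    omega
  · intro j _ hj
    have hj2 : y < j := by simpa [Nat.lt_succ_iff] using hj
    rw [G_neg β ((y : ℤ) - j) (by omega), mul_zero, smul_zero]

theorem Tc_GG' (β : ℝ) (a M y L : ℕ) (hL : y < L ∨ M < L) :
    Tc a (GG β (a + M) y) =
      ∑ v ∈ Finset.range L, (if v ≤ y then qq β a (y - v) else 0) • GG β M v := by
  rw [Tc_GG]
  have h1 : ∑ v ∈ Finset.range (y + 1), qq β a (y - v) • GG β M v =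
      ∑ v ∈ Finset.range (y + 1 + L), (if v ≤ y then qq β a (y - v) else 0) • GG β M v := by
    rw [← Finset.sum_subset (s₁ := Finset.range (y + 1)) (s₂ := Finset.range (y + 1 + L))]
    · apply Finset.sum_congr rfl
      intro v hv
      rw [if_pos (by simpa [Nat.lt_succ_iff] using hv)]
    · intro j hj
      simp only [Finset.mem_range] at hj ⊢
      omega
    · intro j _ hj
      rw [if_neg (by simpa [Nat.lt_succ_iff] using hj), zero_smul]
  rw [h1]
  symm
  apply Finset.sum_subset
  · intro j hj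
    simp only [Finset.mem_range] at hj ⊢
    omega
  · intro j _ hj
    have hj2 : L ≤ j := by simpa using hj
    rcases hL with h | h
    · rw [if_neg (by omega), zero_smul]
    · rw [GG_of_lt β (by omega), smul_zero]

theorem V1_eq (β : ℝ) (c y : ℕ) : coeff 0 (Tc c (GG β c y)) = qq β c y := by
  have := Tc_GG β c 0 y
  rw [add_zero] at this
  rw [this, Finset.sum_eq_single 0]
  · simp [GG_zero]
  · intro v _ hv
    rw [GG_of_lt β (by omega), smul_zero]
  · simp

noncomputable def V2 (β : ℝ) (b c y : ℕ) : ℝ :=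
  ∑ v ∈ Finset.range (y + 1), qq β b (y - v) * qq β c v

noncomputable def V3 (β : ℝ) (a b c y : ℕ) : ℝ :=
  ∑ v ∈ Finset.range (y + 1), qq β a (y - v) * V2 β b c v

theorem V2_eq (β : ℝ) (b c y : ℕ) : coeff 0 (Tc c (Tc b (GG β (b + c) y))) = V2 β b c y := by
  rw [Tc_GG, map_sum, coeff_sum, V2]
  apply Finset.sum_congr rfl
  intro v _
  rw [map_smul, coeff_smul, V1_eq, smul_eq_mul]

theorem V3_eq (β : ℝ) (a b c y : ℕ) :
    coeff 0 (Tc c (Tc b (Tc a (GG β (a + (b + c)) y)))) = V3 β a b c y := by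
  rw [Tc_GG, map_sum, map_sum, coeff_sum, V3]
  apply Finset.sum_congr rfl
  intro v _
  rw [map_smul, map_smul, coeff_smul, V2_eq, smul_eq_mul]

theorem inVars_succ (N : ℕ) (f : Sym) :
    finSuccEquiv ℝ N (inVars (N + 1) f) =
      Polynomial.map (aeval (fun k : ℕ => psum (Fin N) ℝ (k + 1)) : Sym →ₐ[ℝ] _).toRingHom (T f) := by
  unfold inVars
  induction f using MvPolynomial.induction_on with
  | C a => rw [T_C]; simp [finSuccEquiv_apply]
  | add p q hp hq => simp only [map_add, Polynomial.map_add, hp, hq]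
  | mul_X p k hp =>
    rw [map_mul, map_mul, map_mul, Polynomial.map_mul, hp, T_X, aeval_X]
    refine congrArg _ ?_
    simp [psum, Fin.sum_univ_succ, finSuccEquiv_X_zero, finSuccEquiv_X_succ, add_comm]

/-- Iterated extraction of coefficients. -/
noncomputable def iter : ℕ → (ℕ → ℕ) → Sym → Sym
  | 0, _, f => f
  | N + 1, e, f => iter N (fun i => e (i + 1)) (Tc (e 0) f)

theorem coeff_inVars (N : ℕ) : ∀ (e : ℕ → ℕ) (f : Sym),
    coeff (Finsupp.equivFunOnFinite.symm fun i : Fin N => e i) (inVars N f) =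
      coeff 0 (iter N e f) := by
  induction N with
  | zero =>
    intro e f
    have h1 : (Finsupp.equivFunOnFinite.symm fun i : Fin 0 => e i) = 0 := Subsingleton.elim _ _
    rw [h1, iter, ← constantCoeff_eq, ← constantCoeff_eq]
    unfold inVars
    induction f using MvPolynomial.induction_on with
    | C a => simp
    | add p q hp hq => simp only [map_add, hp, hq]
    | mul_X p k hp => simp [psum]
  | succ N ih =>
    intro e f
    have h1 : (Finsupp.equivFunOnFinite.symm fun i : Fin (N + 1) => e i) =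
        Finsupp.cons (e 0) (Finsupp.equivFunOnFinite.symm fun i : Fin N => e (i + 1)) := by
      ext i
      refine Fin.cases ?_ (fun j => ?_) i <;> simp
    rw [h1, ← finSuccEquiv_coeff_coeff, inVars_succ, Polynomial.coeff_map, iter, ← ih]
    rfl

theorem iter_zero_fun (N : ℕ) (f : Sym) : iter N (fun _ => 0) f = f := by
  induction N with
  | zero => rfl
  | succ N ih => rw [iter, Tc_zero, ih]

theorem iter_zero (N : ℕ) : ∀ e : ℕ → ℕ, iter N e 0 = 0 := by
  induction N with
  | zero => intro e; rfl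
  | succ N ih => intro e; rw [iter, map_zero, ih]

theorem mcoef_eq (ν : YoungDiagram) (f : Sym) :
    mcoef ν f = coeff 0 (iter ν.card ν.rowLen f) := coeff_inVars _ _ _

theorem mcoef_two_row (ν : YoungDiagram) (f : Sym) (h : 2 ≤ ν.card) (h2 : ν.rowLen 2 = 0) :
    mcoef ν f = coeff 0 (Tc (ν.rowLen 1) (Tc (ν.rowLen 0) f)) := by
  rw [mcoef_eq]
  obtain ⟨N, hN⟩ := Nat.exists_eq_add_of_le' h
  rw [hN, iter, iter]
  have : (fun i => ν.rowLen (i + 1 + 1)) = fun _ => 0 := by
    funext i
    have := ν.rowLen_anti 2 (i + 1 + 1) (by omega)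
    omega
  simp only [this, iter_zero_fun, zero_add]

theorem mcoef_of_Tc (ν : YoungDiagram) (f : Sym) (h : 1 ≤ ν.card) (h2 : Tc (ν.rowLen 0) f = 0) :
    mcoef ν f = 0 := by
  rw [mcoef_eq]
  obtain ⟨N, hN⟩ := Nat.exists_eq_add_of_le' h
  rw [hN, iter, h2, iter_zero]
  simp

theorem mcoef_smul (ν : YoungDiagram) (c : ℝ) (f : Sym) : mcoef ν (c • f) = c * mcoef ν f := by
  unfold mcoef inVars
  rw [map_smul, coeff_smul, smul_eq_mul]

theorem mcoef_sub (ν : YoungDiagram) (f g : Sym) : mcoef ν (f - g) = mcoef ν f - mcoef ν g := by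
  unfold mcoef inVars
  rw [map_sub, coeff_sub]

theorem isJackP_unique {α : ℝ} (hα : 0 < α) (μ : YoungDiagram) (P Q : Sym)
    (hP : IsJackP α μ P) (hQ : IsJackP α μ Q) : P = Q := by
  have hb : Below μ (P - Q) := by
    refine ⟨hP.1.sub hQ.1, fun ν hν h => ⟨?_, ?_⟩⟩
    · rw [mcoef_sub] at h
      by_cases h1 : mcoef ν P = 0
      · apply hQ.2.2.1 ν hν
        intro h2
        apply h
        rw [h1, h2, sub_zero]
      · exact hP.2.2.1 ν hν h1
    · rintro rfl
      apply h
      rw [mcoef_sub, hP.2.1, hQ.2.1, sub_self]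
  rw [← sub_eq_zero]
  apply form_self_eq_zero hα
  rw [form_sub_left, hP.2.2.2 _ hb, hQ.2.2.2 _ hb, sub_self]

end Pool.Agent.Lib.MP_19b511_co
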