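import Mathlib
import Pool.Agent.Lib.MP_19b511_co.Shift
import Pool.Agent.Lib.MP_19b511_co.Num

/-! Polynomial identities in the parameter, from values at natural numbers. -/

set_option autoImplicit false

namespace Pool.Agent.Lib.MP_19b511_co

open Polynomial

/-- `f` is a polynomial function of degree at most `d`. -/
def PolyLe (d : ℕ) (f : ℝ → ℝ) : Prop := ∃ p : ℝ[X], p.natDegree ≤ d ∧ ∀ x, f x = p.eval x

theorem PolyLe.const (d : ℕ) (c : ℝ) : PolyLe d fun _ => c := ⟨C c, by simp, by simp⟩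

theorem PolyLe.mono {d e : ℕ} {f : ℝ → ℝ} (h : PolyLe d f) (hde : d ≤ e) : PolyLe e f := by
  obtain ⟨p, h1, h2⟩ := h
  exact ⟨p, h1.trans hde, h2⟩

theorem PolyLe.add {d : ℕ} {f g : ℝ → ℝ} (hf : PolyLe d f) (hg : PolyLe d g) :
    PolyLe d fun x => f x + g x := by
  obtain ⟨p, h1, h2⟩ := hf
  obtain ⟨q, h3, h4⟩ := hg
  exact ⟨p + q, (natDegree_add_le p q).trans (max_le h1 h3), fun x => by simp [h2, h4]⟩

theorem PolyLe.sub {d : ℕ} {f g : ℝ → ℝ} (hf : PolyLe d f) (hg : PolyLe d g) :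
    PolyLe d fun x => f x - g x := by
  obtain ⟨p, h1, h2⟩ := hf
  obtain ⟨q, h3, h4⟩ := hg
  exact ⟨p - q, (natDegree_sub_le p q).trans (max_le h1 h3), fun x => by simp [h2, h4]⟩

theorem PolyLe.mul {d e : ℕ} {f g : ℝ → ℝ} (hf : PolyLe d f) (hg : PolyLe e g) :
    PolyLe (d + e) fun x => f x * g x := by
  obtain ⟨p, h1, h2⟩ := hf
  obtain ⟨q, h3, h4⟩ := hg
  exact ⟨p * q, natDegree_mul_le.trans (add_le_add h1 h3), fun x => by simp [h2, h4]⟩

theorem PolyLe.cmul {d : ℕ} {f : ℝ → ℝ} (hf : PolyLe d f) (c : ℝ) : PolyLe d fun x => c * f x := by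
  have := (PolyLe.const 0 c).mul hf
  rwa [zero_add] at this

theorem PolyLe.sum {d : ℕ} (s : Finset ℕ) (f : ℕ → ℝ → ℝ) (hf : ∀ i ∈ s, PolyLe d (f i)) :
    PolyLe d fun x => ∑ i ∈ s, f i x := by
  induction s using Finset.induction_on with
  | empty => simpa using PolyLe.const d 0
  | insert a s ha ih =>
    simp only [Finset.sum_insert ha]
    exact (hf a (by simp)).add (ih fun i hi => hf i (by simp [hi]))

theorem PolyLe.lin (a b : ℝ) : PolyLe 1 fun x => a * x + b :=
  ⟨C a * X + C b, natDegree_linear_le, fun x => by simp⟩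

theorem PolyLe.vanish {d : ℕ} {f : ℝ → ℝ} (hf : PolyLe d f) (h : ∀ m : ℕ, m < d + 1 → f m = 0)
    (x : ℝ) : f x = 0 := by
  obtain ⟨p, h1, h2⟩ := hf
  have : p = 0 := by
    apply eq_zero_of_natDegree_lt_card_of_eval_eq_zero p (f := fun i : Fin (d + 1) => ((i : ℕ) : ℝ))
    · intro i j hij
      exact Fin.ext (Nat.cast_injective hij)
    · intro i
      rw [← h2, h i i.2]
    · simp
      omega
  rw [h2, this, eval_zero]

theorem polyLe_rise (a b : ℝ) (j : ℕ) : PolyLe j fun x => rise (a * x + b) j := by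
  induction j with
  | zero => simpa [rise] using PolyLe.const 0 1
  | succ j ih =>
    simp only [rise, Finset.prod_range_succ, add_assoc] at ih ⊢
    exact ih.mul (PolyLe.lin a (b + j))

theorem polyLe_rise0 (j : ℕ) : PolyLe j fun x => rise x j := by
  simpa using polyLe_rise 1 0 j

theorem polyLe_cc (j : ℕ) : PolyLe j fun x => cc x j := by
  simpa [cc, div_eq_inv_mul] using (polyLe_rise0 j).cmul (j.factorial : ℝ)⁻¹

theorem polyLe_qq (a j : ℕ) : PolyLe a fun x => qq x a j := by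
  unfold qq
  by_cases h : j ≤ a
  · simp only [if_pos h]
    exact ((polyLe_cc j).mul (polyLe_cc (a - j))).mono (by omega)
  · simp only [if_neg h]
    exact PolyLe.const a 0

theorem polyLe_V2 (b c y : ℕ) : PolyLe (b + c) fun x => V2 x b c y :=
  PolyLe.sum _ _ fun _ _ => (polyLe_qq _ _).mul (polyLe_qq _ _)

theorem polyLe_V3 (a b c y : ℕ) : PolyLe (a + (b + c)) fun x => V3 x a b c y :=
  PolyLe.sum _ _ fun _ _ => (polyLe_qq _ _).mul (polyLe_V2 _ _ _)

theorem polyLe_fall (k : ℕ) : PolyLe k fun x => (descPochhammer ℝ k).eval x :=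
  ⟨descPochhammer ℝ k, (descPochhammer_natDegree ℝ k).le, fun _ => rfl⟩

/-- The coefficients of the two-row Jack function. -/
noncomputable def AA (β : ℝ) (i : ℕ) : ℝ :=
  (-1) ^ i * ((descPochhammer ℝ i).eval β * (WN i : ℝ) * rise (β + (18 + i)) (17 - i))

theorem polyLe_AA (i : ℕ) (hi : i ≤ 17) : PolyLe 17 fun x => AA x i := by
  have h1 := polyLe_rise 1 (18 + i) (17 - i)
  simp only [one_mul] at h1
  have h2 := (((polyLe_fall i).mul (PolyLe.const 0 (WN i : ℝ))).mul h1).cmul ((-1) ^ i)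
  exact h2.mono (by omega)

/-- Pairing with the coefficients `AA`. -/
noncomputable def SA (β : ℝ) (f : ℕ → ℝ) : ℝ := ∑ i ∈ Finset.range 18, AA β i * f (17 - i)

theorem polyLe_SA (f : ℝ → ℕ → ℝ) (hf : ∀ y, PolyLe 51 fun x => f x y) :
    PolyLe 68 fun x => SA x (f x) :=
  PolyLe.sum _ _ fun i hi => (polyLe_AA i (by simpa [Nat.lt_succ_iff] using hi)).mul (hf _)

theorem rise_nat (m j : ℕ) : rise (m : ℝ) j = (m.ascFactorial j : ℝ) := by
  induction j with
  | zero => simp [rise]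
  | succ j ih =>
    rw [rise, Finset.prod_range_succ, ← rise, ih, Nat.ascFactorial_succ]
    push_cast
    ring

theorem cc_nat (m j : ℕ) : cc (m : ℝ) j = (cF m j : ℝ) := by
  rw [cF, force_eq, cN, cc, rise_nat, Nat.cast_div (Nat.factorial_dvd_ascFactorial m j)]
  positivity

theorem boolrec_ble (a b x : ℕ) :
    (Bool.rec 0 x (Nat.ble a b) : ℕ) = if a ≤ b then x else 0 := by
  by_cases h : a ≤ b
  · rw [if_pos h, Nat.ble_eq_true_of_le h]
  · have : Nat.ble a b = false := by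
      rw [← Bool.not_eq_true, Nat.ble_eq]
      exact h
    rw [if_neg h, this]

theorem qq_nat (m a j : ℕ) : qq (m : ℝ) a j = (qF m a j : ℝ) := by
  rw [qF, force_eq, qN, boolrec_ble, qq, cc_nat, cc_nat]
  split_ifs <;> simp

theorem V2_nat (m b c y : ℕ) : V2 (m : ℝ) b c y = (V2N m b c y : ℝ) := by
  rw [V2N, sumTo_eq, V2]
  simp [qq_nat]

theorem V3_nat (m a b c y : ℕ) : V3 (m : ℝ) a b c y = (V3N m a b c y : ℝ) := by
  rw [V3N, sumTo_eq, V3]
  simp [qq_nat, V2_nat]

theorem AA_nat (m i : ℕ) : AA (m : ℝ) i = (-1) ^ i * (AF m i : ℝ) := by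
  have : (m : ℝ) + (18 + i) = ((m + 18 + i : ℕ) : ℝ) := by push_cast; ring
  rw [AF, force_eq, AN, AA, this, rise_nat, descPochhammer_eval_eq_descFactorial]
  push_cast
  rfl

theorem sum_alt (u : ℕ → ℝ) : ∑ i ∈ Finset.range 18, (-1) ^ i * u i =
    ∑ t ∈ Finset.range 9, u (2 * t) - ∑ t ∈ Finset.range 9, u (2 * t + 1) := by
  simp only [Finset.sum_range_succ, Finset.sum_range_zero]
  norm_num
  ring

theorem SA_nat (m : ℕ) (g : ℕ → ℕ) :
    SA (m : ℝ) (fun y => (g y : ℝ)) = (sumE m g : ℝ) - (sumO m g : ℝ) := by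
  rw [SA, sumE, sumO, sumTo_eq, sumTo_eq]
  simp only [AA_nat, mul_assoc, force_eq]
  rw [sum_alt fun i => (AF m i : ℝ) * (g (17 - i) : ℝ)]
  push_cast
  congr 1
  · apply Finset.sum_congr rfl
    intro t _
    simp
  · apply Finset.sum_congr rfl
    intro t _
    simp

theorem SA_add (β : ℝ) (f g : ℕ → ℝ) : SA β (fun y => f y + g y) = SA β f + SA β g := by
  simp [SA, mul_add, Finset.sum_add_distrib]

theorem SA_sub (β : ℝ) (f g : ℕ → ℝ) : SA β (fun y => f y - g y) = SA β f - SA β g := by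
  simp [SA, mul_sub, Finset.sum_sub_distrib]

/-- The coefficient used in the triangularity check. -/
noncomputable def KK (β : ℝ) (M v : ℕ) : ℝ :=
  SA β fun y => if v ≤ y then qq β (51 - M) (y - v) else 0

theorem polyLe_KK (M v : ℕ) : PolyLe 68 fun x => KK x M v := by
  apply polyLe_SA fun x y => if v ≤ y then qq x (51 - M) (y - v) else 0
  intro y
  by_cases h : v ≤ y
  · simp only [if_pos h]
    exact (polyLe_qq _ _).mono (by omega)
  · simp only [if_neg h]
    exact PolyLe.const _ 0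

theorem KK_half (β : ℝ) (M v : ℕ) (hM : M < 17) (hv : v ≤ M / 2) :
    KK β M v + KK β M (M - v) = 0 := by
  apply ((polyLe_KK M v).add (polyLe_KK M (M - v))).vanish
  intro m hm
  have h1 := allTo_spec _ _ (allTo_spec _ _ (allTo_spec _ _ checkK_all m hm) M hM) v
    (Nat.lt_succ_of_le hv)
  have h2 := Nat.eq_of_beq_eq_true h1
  have h3 := SA_nat m (kN m M v)
  rw [h2, sub_self] at h3
  rw [KK, KK, ← SA_add]
  refine Eq.trans (congrArg _ ?_) h3
  funext y
  rw [kN, force_eq, qqN, qqN, boolrec_ble, boolrec_ble, qq_nat, qq_nat]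
  simp

theorem KK_symm (β : ℝ) (M v : ℕ) (hM : M < 17) (hv : v ≤ M) :
    KK β M v + KK β M (M - v) = 0 := by
  by_cases h : v ≤ M / 2
  · exact KK_half β M v hM h
  · have := KK_half β M (M - v) hM (by omega)
    rwa [Nat.sub_sub_self hv, add_comm] at this

theorem hook_id (β : ℝ) :
    SA β (V2 β 34 17) = rise (2 * β + 17) 17 * rise β 17 * rise β 17 := by
  rw [← sub_eq_zero]
  have h0 : PolyLe 68 fun x => rise (2 * x + 17) 17 * rise x 17 * rise x 17 :=
    (((polyLe_rise 2 17 17).mul (polyLe_rise0 17)).mul (polyLe_rise0 17)).mono (by omega)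
  apply ((polyLe_SA (fun x => V2 x 34 17) fun y => polyLe_V2 34 17 y).sub h0).vanish
  intro m hm
  have h2 := Nat.eq_of_beq_eq_true (allTo_spec _ _ checkH_all m hm)
  have h3 := SA_nat m (V2N m 34 17)
  have h4 : V2 (m : ℝ) 34 17 = fun y => (V2N m 34 17 y : ℝ) := funext fun y => V2_nat _ _ _ _
  have h5 : 2 * (m : ℝ) + 17 = ((2 * m + 17 : ℕ) : ℝ) := by push_cast; rfl
  rw [h4, h3, h2, h5, rise_nat, rise_nat, hookN]
  simp only [Nat.add_eq, Nat.cast_add, Nat.cast_mul]
  ring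

/-- The signed sum coming from the Jacobi-Trudi determinant. -/
noncomputable def VD (β : ℝ) (y : ℕ) : ℝ :=
  V3 β 17 17 17 y + V3 β 18 18 15 y + V3 β 19 16 16 y - (2 * V3 β 17 18 16 y + V3 β 19 17 15 y)

theorem hall_id (β : ℝ) :
    SA β (VD β) = ∑ k ∈ Finset.range 52, (bl.getD k 0 : ℝ) * (descPochhammer ℝ k).eval β := by
  rw [← sub_eq_zero]
  have h0 : PolyLe 68 fun x =>
      ∑ k ∈ Finset.range 52, (bl.getD k 0 : ℝ) * (descPochhammer ℝ k).eval x :=
    PolyLe.sum _ _ fun k hk => ((polyLe_fall k).cmul _).mono (by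
      have := Finset.mem_range.mp hk
      omega)
  have h1 : ∀ y, PolyLe 51 fun x => VD x y := fun y =>
    (((polyLe_V3 17 17 17 y).add (polyLe_V3 18 18 15 y)).add (polyLe_V3 19 16 16 y)).sub
      (((polyLe_V3 17 18 16 y).cmul 2).add (polyLe_V3 19 17 15 y))
  apply ((polyLe_SA VD h1).sub h0).vanish
  intro m hm
  have h2 := congrArg (Nat.cast : ℕ → ℝ) (Nat.eq_of_beq_eq_true (allTo_spec _ _ checkC_all m hm))
  have h4 : VD (m : ℝ) = fun y => (posN m y : ℝ) - (negN m y : ℝ) := by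
    funext y
    simp [VD, posN, negN, V3_nat]
  have h5 : ∑ k ∈ Finset.range 52, (bl.getD k 0 : ℝ) * (descPochhammer ℝ k).eval (m : ℝ) =
      (rhsN m : ℝ) := by
    rw [rhsN, sumTo_eq]
    push_cast
    apply Finset.sum_congr rfl
    intro k _
    rw [descPochhammer_eval_eq_descFactorial]
    simp
  rw [h4, SA_sub, SA_nat, SA_nat, h5]
  simp only [Nat.add_eq, Nat.cast_add] at h2
  linarith

end Pool.Agent.Lib.MP_19b511_co
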