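import Mathlib
import Pool.Agent.Lib.MP_19b511_co.PolyId

/-! The Jack symmetric function of the partition (34, 17). -/

set_option autoImplicit false

namespace Pool.Agent.Lib.MP_19b511_co

open MvPolynomial

theorem rowLen_of (ν : YoungDiagram) (i c : ℕ) (h : ∀ j, (i, j) ∈ ν ↔ j < c) : ν.rowLen i = c := by
  apply eq_of_forall_lt_iff
  intro j
  rw [← YoungDiagram.mem_iff_lt_rowLen, h]

theorem colLen_of (ν : YoungDiagram) (j c : ℕ) (h : ∀ i, (i, j) ∈ ν ↔ i < c) : ν.colLen j = c := by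
  apply eq_of_forall_lt_iff
  intro i
  rw [← YoungDiagram.mem_iff_lt_colLen, h]

theorem sum_rowLen_le (ν : YoungDiagram) (k : ℕ) : ∑ i ∈ Finset.range k, ν.rowLen i ≤ ν.card := by
  simp only [YoungDiagram.rowLen_eq_card]
  rw [← Finset.card_biUnion]
  · apply Finset.card_le_card
    intro c hc
    simp only [Finset.mem_biUnion, YoungDiagram.mem_row_iff] at hc
    obtain ⟨_, _, h, _⟩ := hc
    exact h
  · intro i _ j _ hij
    rw [Function.onFun, Finset.disjoint_left]
    intro c h1 h2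
    rw [YoungDiagram.mem_row_iff] at h1 h2
    exact hij (h1.2.symm.trans h2.2)

/-- The diagram with two rows `a ≥ b`. -/
def two (a b : ℕ) (h : b ≤ a) : YoungDiagram :=
  YoungDiagram.ofRowLens [a, b] (by simp [List.sortedGE_iff_pairwise, h])

theorem mem_two (a b : ℕ) (h : b ≤ a) (i j : ℕ) :
    (i, j) ∈ two a b h ↔ (i = 0 ∧ j < a) ∨ (i = 1 ∧ j < b) := by
  unfold two
  rw [YoungDiagram.mem_ofRowLens]
  rcases i with _ | _ | i <;> simp

theorem two_row0 (a b : ℕ) (h : b ≤ a) : (two a b h).rowLen 0 = a :=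
  rowLen_of _ _ _ fun j => by simp [mem_two]

theorem two_row1 (a b : ℕ) (h : b ≤ a) : (two a b h).rowLen 1 = b :=
  rowLen_of _ _ _ fun j => by simp [mem_two]

theorem two_row2 (a b : ℕ) (h : b ≤ a) : (two a b h).rowLen 2 = 0 :=
  rowLen_of _ _ _ fun j => by simp [mem_two]

theorem two_cells (a b : ℕ) (h : b ≤ a) :
    (two a b h).cells = ({0} ×ˢ Finset.range a) ∪ ({1} ×ˢ Finset.range b) := by
  ext ⟨i, j⟩
  rw [YoungDiagram.mem_cells, mem_two]
  simp only [Finset.mem_union, Finset.mem_product, Finset.mem_singleton, Finset.mem_range]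

theorem two_disj (a b : ℕ) :
    Disjoint (({0} : Finset ℕ) ×ˢ Finset.range a) (({1} : Finset ℕ) ×ˢ Finset.range b) := by
  rw [Finset.disjoint_left]
  rintro ⟨i, j⟩ h1 h2
  simp only [Finset.mem_product, Finset.mem_singleton] at h1 h2
  omega

theorem two_card (a b : ℕ) (h : b ≤ a) : (two a b h).card = a + b := by
  rw [YoungDiagram.card, two_cells, Finset.card_union_of_disjoint (two_disj a b)]
  simp

/-- The partition (34, 17). -/
def mu : YoungDiagram := two 34 17 (by omega)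

/-- The partition (17, 17, 17). -/
def lam : YoungDiagram := YoungDiagram.ofRowLens [17, 17, 17] (by simp [List.sortedGE_iff_pairwise])

theorem mu_rowLens : mu.rowLens = [34, 17] := by
  unfold mu two
  exact YoungDiagram.rowLens_ofRowLens_eq_self (by simp)

theorem lam_rowLens : lam.rowLens = [17, 17, 17] := YoungDiagram.rowLens_ofRowLens_eq_self (by simp)

theorem mu_card : mu.card = 51 := two_card _ _ _

theorem mem_lam (i j : ℕ) : (i, j) ∈ lam ↔ i < 3 ∧ j < 17 := by
  unfold lam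
  rw [YoungDiagram.mem_ofRowLens]
  rcases i with _ | _ | _ | i <;> simp

theorem lam_card : lam.card = 51 := by
  have : lam.cells = Finset.range 3 ×ˢ Finset.range 17 := by
    ext ⟨i, j⟩
    rw [YoungDiagram.mem_cells, mem_lam]
    simp
  rw [YoungDiagram.card, this]
  simp

theorem lam_col0 : lam.colLen 0 = 3 := colLen_of _ _ _ fun i => by simp [mem_lam]

theorem lam_row (i : ℕ) (hi : i < 3) : lam.rowLen i = 17 :=
  rowLen_of _ _ _ fun j => by simp [mem_lam, hi]

theorem det_cast (m : ℕ) (h : m = 3) (φ : ℕ → ℕ → Sym) :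
    Matrix.det (Matrix.of fun i j : Fin m => φ i j) =
      φ 0 0 * φ 1 1 * φ 2 2 - φ 0 0 * φ 1 2 * φ 2 1 - φ 0 1 * φ 1 0 * φ 2 2
        + φ 0 1 * φ 1 2 * φ 2 0 + φ 0 2 * φ 1 0 * φ 2 1 - φ 0 2 * φ 1 1 * φ 2 0 := by
  subst h
  rw [Matrix.det_fin_three]
  rfl

/-- A product of three complete symmetric functions. -/
noncomputable def h3 (a b c : ℕ) : Sym := G 1 a * (G 1 b * (G 1 c * 1))

theorem schur_lam : schur lam = h3 17 17 17 + h3 18 18 15 + h3 19 16 16 -
    ((2 : ℝ) • h3 17 18 16 + h3 19 17 15) := by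
  unfold schur
  rw [det_cast _ lam_col0 (fun i j => hh ((lam.rowLen i : ℤ) - (i : ℕ) + (j : ℕ))),
    lam_row 0 (by omega), lam_row 1 (by omega), lam_row 2 (by omega)]
  simp only [hh_eq, h3, two_smul]
  norm_num
  ring

theorem form_h3 (a b c : ℕ) (f : Sym) : form 1 f (h3 a b c) = coeff 0 (Tc c (Tc b (Tc a f))) := by
  rw [form_comm, h3, form_G_mul (one_mul 1), form_G_mul (one_mul 1), form_G_mul (one_mul 1),
    form_one]

/-- The integral form Jack function, rescaled. -/
noncomputable def FF (β : ℝ) : Sym := ∑ i ∈ Finset.range 18, AA β i • GG β 51 (17 - i)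

theorem homog_FF (β : ℝ) : Homog 51 (FF β) := by
  apply Homog.sum
  intro i _
  apply Homog.smul
  have h1 : ((51 : ℕ) : ℤ) - ((17 - i : ℕ) : ℤ) = ((51 - (17 - i) : ℕ) : ℤ) := by omega
  have h2 := (homog_G β (51 - (17 - i))).mul (homog_G β (17 - i))
  have h3 : 51 - (17 - i) + (17 - i) = 51 := by omega
  rw [h3] at h2
  rw [GG, h1]
  exact h2

theorem lin_FF (β : ℝ) (L : Sym →ₗ[ℝ] Sym) :
    coeff 0 (L (FF β)) = SA β fun y => coeff 0 (L (GG β 51 y)) := by
  rw [FF, map_sum, coeff_sum, SA]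
  apply Finset.sum_congr rfl
  intro i _
  rw [map_smul, coeff_smul, smul_eq_mul]

theorem form_FF_h3 (β : ℝ) (a b c : ℕ) (h : a + (b + c) = 51) :
    form 1 (FF β) (h3 a b c) = SA β (V3 β a b c) := by
  rw [form_h3]
  have := lin_FF β ((Tc c).comp ((Tc b).comp (Tc a)))
  simp only [LinearMap.comp_apply] at this
  rw [this, ← h]
  simp only [V3_eq]

theorem SA_mul (β c : ℝ) (f : ℕ → ℝ) : SA β (fun y => c * f y) = c * SA β f := by
  simp only [SA, Finset.mul_sum]
  apply Finset.sum_congr rfl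
  intro i _
  ring

theorem form_FF_schur (β : ℝ) : form 1 (FF β) (schur lam) =
    ∑ k ∈ Finset.range 52, (bl.getD k 0 : ℝ) * (descPochhammer ℝ k).eval β := by
  rw [← hall_id, schur_lam, ← formL_apply, map_sub, map_add, map_add, map_add, map_smul]
  simp only [formL_apply]
  rw [form_FF_h3 _ _ _ _ rfl, form_FF_h3 _ _ _ _ rfl, form_FF_h3 _ _ _ _ rfl,
    form_FF_h3 _ _ _ _ rfl, form_FF_h3 _ _ _ _ rfl, smul_eq_mul, ← SA_mul, ← SA_add, ← SA_add,
    ← SA_add, ← SA_sub]
  rfl

theorem mcoef_mu_FF (β : ℝ) :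
    mcoef mu (FF β) = rise (2 * β + 17) 17 * rise β 17 * rise β 17 := by
  rw [mcoef_two_row mu _ (by rw [mu_card]; omega) (two_row2 _ _ _), ← hook_id]
  have := lin_FF β ((Tc 17).comp (Tc 34))
  simp only [LinearMap.comp_apply] at this
  rw [mu, two_row0, two_row1, this]
  exact congrArg _ (funext fun y => V2_eq β 34 17 y)

theorem Tc_FF (β : ℝ) (t : ℕ) (h1 : 35 ≤ t) (h2 : t ≤ 51) : Tc t (FF β) = 0 := by
  obtain ⟨M, hM⟩ := Nat.exists_eq_add_of_le h2
  have h3 : t = 51 - M := by omega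
  have h4 : Tc t (FF β) = ∑ v ∈ Finset.range (M + 1), KK β M v • GG β M v := by
    rw [FF, map_sum]
    simp only [map_smul, hM]
    simp only [Tc_GG' β t M _ (M + 1) (Or.inr (Nat.lt_succ_self M)), Finset.smul_sum, smul_smul]
    rw [Finset.sum_comm]
    apply Finset.sum_congr rfl
    intro v _
    rw [← Finset.sum_smul, KK, SA, ← h3]
  have h5 : Tc t (FF β) = ∑ v ∈ Finset.range (M + 1), KK β M (M - v) • GG β M v := by
    rw [h4, ← Finset.sum_range_reflect]
    apply Finset.sum_congr rfl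
    intro v hv
    have hv2 : v ≤ M := by simpa [Nat.lt_succ_iff] using hv
    rw [Nat.add_sub_cancel, GG_symm β hv2]
  have h6 : (2 : ℝ) • Tc t (FF β) = 0 := by
    rw [two_smul]
    nth_rewrite 1 [h4]
    rw [h5, ← Finset.sum_add_distrib]
    apply Finset.sum_eq_zero
    intro v hv
    have hv2 : v ≤ M := by simpa [Nat.lt_succ_iff] using hv
    rw [← add_smul, KK_symm β M v (by omega) hv2, zero_smul]
  exact (smul_eq_zero.mp h6).resolve_left two_ne_zero

theorem dom_FF (β : ℝ) (ν : YoungDiagram) (hν : ν.card = 51) (h : mcoef ν (FF β) ≠ 0) :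
    Dom ν mu := by
  have h0 := sum_rowLen_le ν 1
  simp only [Finset.range_one, Finset.sum_singleton] at h0
  have h1 : ν.rowLen 0 ≤ 34 := by
    by_contra h2
    exact h (mcoef_of_Tc ν _ (by omega) (Tc_FF β _ (by omega) (by omega)))
  intro k
  rcases k with _ | _ | k
  · simp
  · simpa [mu, two_row0] using h1
  · have h2 := sum_rowLen_le ν (k + 1 + 1)
    rw [Finset.sum_range_succ' mu.rowLen, Finset.sum_range_succ' fun i => mu.rowLen (i + 1)]
    have h3 : mu.rowLen 0 = 34 := two_row0 _ _ _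
    have h4 : mu.rowLen (0 + 1) = 17 := two_row1 _ _ _
    omega

theorem orth_FF {α β : ℝ} (h : β * α = 1) (g : Sym) (hg : Below mu g) : form α (FF β) g = 0 := by
  rw [FF, form_sum_left]
  apply Finset.sum_eq_zero
  intro i hi
  have hi2 : i ≤ 17 := by simpa [Nat.lt_succ_iff] using hi
  have h1 : ((51 : ℕ) : ℤ) - ((17 - i : ℕ) : ℤ) = ((34 + i : ℕ) : ℤ) := by omega
  have h2 : (two (34 + i) (17 - i) (by omega)).card = 51 := by rw [two_card]; omega
  have h3 := mcoef_two_row (two (34 + i) (17 - i) (by omega)) g (by omega) (two_row2 _ _ _)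
  rw [two_row0, two_row1] at h3
  rw [form_smul_left, GG, h1, ← mul_one (G β ((17 - i : ℕ) : ℤ)), form_G_mul h, form_G_mul h,
    form_one, ← h3]
  have h4 : mcoef (two (34 + i) (17 - i) (by omega)) g = 0 := by
    by_contra h5
    obtain ⟨h6, h7⟩ := hg.2 _ (h2.trans mu_card.symm) h5
    have h8 := h6 1
    simp only [Finset.range_one, Finset.sum_singleton, mu, two_row0] at h8
    have h9 : i = 0 := by omega
    subst h9
    exact h7 rfl
  rw [h4, mul_zero]

theorem rise_pos {x : ℝ} (hx : 0 < x) (j : ℕ) : 0 < rise x j := by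
  apply Finset.prod_pos
  intro i _
  positivity

theorem mu_col (j : ℕ) : mu.colLen j = if j < 17 then 2 else if j < 34 then 1 else 0 := by
  apply colLen_of
  intro i
  rw [mu, mem_two]
  split_ifs <;> omega

theorem hook_mu {β : ℝ} (hβ : 0 < β) :
    β ^ 51 * hookProd β⁻¹ mu = rise (2 * β + 17) 17 * rise β 17 * rise β 17 := by
  have h0 : β ^ 51 = ∏ _s ∈ mu.cells, β := by
    rw [Finset.prod_const]
    exact congrArg _ mu_card.symm
  have h3 : mu.rowLen 0 = 34 := two_row0 _ _ _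
  have h4 : mu.rowLen 1 = 17 := two_row1 _ _ _
  have h5 : mu.cells = ({0} ×ˢ Finset.range 34) ∪ ({1} ×ˢ Finset.range 17) := two_cells _ _ _
  have h6 : ∀ a l : ℝ, β * (β⁻¹ * a + l + 1) = a + β * (l + 1) := by
    intro a l
    field_simp
    ring
  rw [h0, hookProd, ← Finset.prod_mul_distrib, h5, Finset.prod_union (two_disj 34 17)]
  simp only [h6, Finset.prod_product, Finset.prod_singleton, h3, h4, mu_col]
  have h7 : (34 : ℕ) = 17 + 17 := rfl
  nth_rewrite 1 [h7]
  rw [Finset.prod_range_add]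
  unfold rise
  refine congrArg₂ _ (congrArg₂ _ ?_ ?_) ?_
  all_goals
    rw [← Finset.prod_range_reflect]
    apply Finset.prod_congr rfl
    intro j hj
    have hj2 : j < 17 := Finset.mem_range.mp hj
  · rw [if_pos (by omega), show 34 - (17 - 1 - j) - 1 = 17 + j by omega]
    push_cast
    ring
  · rw [if_neg (by omega), if_pos (by omega), show 34 - (17 + (17 - 1 - j)) - 1 = j by omega]
    push_cast
    ring
  · rw [if_pos (by omega), show 17 - (17 - 1 - j) - 1 = j by omega]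
    push_cast
    ring

theorem jack_mu {β : ℝ} (hβ : 0 < β) :
    IsJackP β⁻¹ mu ((β ^ 51 * hookProd β⁻¹ mu)⁻¹ • FF β) := by
  have h1 : 0 < β ^ 51 * hookProd β⁻¹ mu := by
    rw [hook_mu hβ]
    exact mul_pos (mul_pos (rise_pos (by positivity) _) (rise_pos hβ _)) (rise_pos hβ _)
  refine ⟨?_, ?_, ?_, ?_⟩
  · rw [mu_card]
    exact (homog_FF β).smul _
  · rw [mcoef_smul, mcoef_mu_FF, ← hook_mu hβ, inv_mul_cancel₀ h1.ne']
  · intro ν hν h
    rw [mcoef_smul] at h
    exact dom_FF β ν (hν.trans mu_card) (right_ne_zero_of_mul h)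
  · intro g hg
    rw [form_smul_left, orth_FF (mul_inv_cancel₀ hβ.ne') g hg, mul_zero]

theorem jack_value {β : ℝ} (hβ : 0 < β) (P : Sym) (hP : IsJackP β⁻¹ mu P) :
    form 1 (β ^ 51 • (hookProd β⁻¹ mu • P)) (schur lam) =
      ∑ k ∈ Finset.range 52, (bl.getD k 0 : ℝ) * (descPochhammer ℝ k).eval β := by
  have h1 : 0 < β ^ 51 * hookProd β⁻¹ mu := by
    rw [hook_mu hβ]
    exact mul_pos (mul_pos (rise_pos (by positivity) _) (rise_pos hβ _)) (rise_pos hβ _)
  rw [isJackP_unique (inv_pos.mpr hβ) mu _ _ hP (jack_mu hβ), smul_smul, smul_smul,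
    mul_inv_cancel₀ h1.ne', one_smul, form_FF_schur]

end Pool.Agent.Lib.MP_19b511_co
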