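import Mathlib
import Pool.Agent.Lib.MP_19b511_co.Num

/-! Laguerre's inequality and the non-real zero. -/

set_option autoImplicit false

namespace Pool.Agent.Lib.MP_19b511_co

open Polynomial

theorem laguerre (n : ℕ) : ∀ P : ℝ[X], P.natDegree = n →
    (∀ z : ℂ, aeval z P = 0 → z.im = 0) → ∀ x : ℝ,
    0 ≤ (derivative P).eval x ^ 2 - P.eval x * (derivative (derivative P)).eval x := by
  induction n with
  | zero =>
    intro P hP _ x
    rw [eq_C_of_natDegree_eq_zero hP]
    simp
  | succ n ih =>
    intro P hP h x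
    have hP0 : P ≠ 0 := by
      rintro rfl
      simp at hP
    have hd : P.degree ≠ 0 := by
      rw [degree_eq_natDegree hP0, hP]
      exact_mod_cast Nat.succ_ne_zero n
    obtain ⟨z, hz⟩ := IsAlgClosed.exists_aeval_eq_zero ℂ P hd
    have hz2 : z = (z.re : ℂ) := by
      apply Complex.ext
      · simp
      · simp [h z hz]
    have hr : P.IsRoot z.re := by
      rw [hz2] at hz
      have h2 : aeval (algebraMap ℝ ℂ z.re) P = 0 := hz
      rw [aeval_algebraMap_apply, map_eq_zero] at h2
      simpa using h2
    obtain ⟨Q, hQ⟩ := dvd_iff_isRoot.mpr hr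
    have hQ0 : Q ≠ 0 := by
      rintro rfl
      simp at hQ
      exact hP0 hQ
    have hQd : Q.natDegree = n := by
      rw [hQ, natDegree_mul (X_sub_C_ne_zero _) hQ0, natDegree_X_sub_C] at hP
      omega
    have h3 := ih Q hQd (fun w hw => h w (by rw [hQ, map_mul, hw, mul_zero])) x
    rw [hQ]
    simp only [derivative_mul, derivative_sub, derivative_X, derivative_C, sub_zero, one_mul,
      derivative_add, eval_add, eval_mul, eval_sub, eval_X, eval_C]
    nlinarith [mul_nonneg (sq_nonneg (x - z.re)) h3, sq_nonneg (Q.eval x)]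

theorem exists_nonreal :
    ∃ z : ℂ, z.im ≠ 0 ∧ ∑ k ∈ Finset.range 52, (bl.getD k 0 : ℂ) * z ^ k = 0 := by
  by_contra hc
  push Not at hc
  have h := laguerre _ (∑ k ∈ Finset.range 52, C (bl.getD k 0 : ℝ) * X ^ k) rfl (by
    intro z hz
    by_contra h2
    apply hc z h2
    simpa [map_sum] using hz) (-1 / 800)
  simp only [derivative_sum, derivative_C_mul, derivative_X_pow, eval_finsetSum, eval_mul, eval_C,
    eval_pow, eval_X] at h
  simp only [Finset.sum_range_succ, Finset.sum_range_zero, bl, List.getD_cons_succ,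
    List.getD_cons_zero] at h
  norm_num at h

end Pool.Agent.Lib.MP_19b511_co
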